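import Mathlib

/-!
# Graphs and vertex covers
-/

set_option autoImplicit false

open Finset

namespace Pool.Agent.X240.TNV

/-- The pairs of vertices; a graph on `Fin n` is a function `x : Pair n → Bool`, where `x e = true`
says that `e` is an edge. -/
abbrev Pair (n : ℕ) : Type := {e : Fin n × Fin n // e.1 < e.2}

/-- `C` is a vertex cover of the graph `x`. -/
def IsCover {n : ℕ} (x : Pair n → Bool) (C : Finset (Fin n)) : Prop :=
  ∀ e, x e = true → e.1.1 ∈ C ∨ e.1.2 ∈ C

/-- Some vertex cover has at most `n / h` vertices. -/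
def SmallCover {n : ℕ} (h : ℕ) (x : Pair n → Bool) : Prop := ∃ C, IsCover x C ∧ h * C.card ≤ n

/-- All vertex covers have at least `(1 - 1 / g) n` vertices. -/
def LargeCovers {n : ℕ} (g : ℕ) (x : Pair n → Bool) : Prop :=
  ∀ C, IsCover x C → g * n ≤ g * C.card + n

end Pool.Agent.X240.TNV
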