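import Pool.Agent.TH700.PA.Density
import Pool.Agent.TH700.PA.Count
import Pool.Agent.X240.TNV.Defs

/-!
# Vertex cover and read-once tensor networks
-/

set_option autoImplicit false

open Finset

namespace Pool.Agent.X240.TNV

open Pool.Agent.TH700.PA

/-- the graph whose edges are the pairs which touch the zeros of `P` -/
def gz {n h : ℕ} [NeZero h] (P : Fin n → Fin h) (e : Pair n) : Bool :=
  decide (P e.1.1 = 0 ∨ P e.1.2 = 0)

theorem gz_small {n h : ℕ} [NeZero h] (P : Fin n → Fin h)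
    (hP : h * (univ.filter (fun v => P v = 0)).card ≤ n) : SmallCover h (gz P) := by
  refine ⟨univ.filter (fun v => P v = 0), ?_, hP⟩
  intro e he
  unfold gz at he
  rw [decide_eq_true_eq] at he
  simpa using he

/-- many patterns have few zeros -/
theorem card_few {n h : ℕ} [NeZero h] : Fintype.card (Fin n → Fin h) ≤
    h * ((univ : Finset (Fin n → Fin h)).filter
      (fun P => h * (univ.filter (fun v => P v = 0)).card ≤ n)).card := by
  classical
  obtain ⟨Y, hY⟩ : ∃ Y : Fin h → Finset (Fin n → Fin h), Y = fun c =>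
      univ.filter (fun P => h * (univ.filter (fun v => P v = c)).card ≤ n) := ⟨_, rfl⟩
  have h1 : ∀ c, (Y c).card ≤ (Y 0).card := by
    intro c
    apply card_le_card_of_injOn (fun P v => Equiv.swap 0 c (P v))
    · intro P hP
      rw [hY] at hP ⊢
      rw [mem_coe, mem_filter] at hP ⊢
      refine ⟨mem_univ _, ?_⟩
      have e : (univ.filter (fun v => Equiv.swap 0 c (P v) = 0)) =
          univ.filter (fun v => P v = c) := by
        ext v
        rw [mem_filter, mem_filter]
        constructor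
        · rintro ⟨-, h2⟩
          refine ⟨mem_univ _, ?_⟩
          exact (Equiv.swap 0 c).injective (h2.trans (Equiv.swap_apply_right 0 c).symm)
        · rintro ⟨-, h2⟩
          refine ⟨mem_univ _, ?_⟩
          rw [h2, Equiv.swap_apply_right]
      rw [e]
      exact hP.2
    · intro P _ P' _ hPP
      funext v
      exact (Equiv.swap 0 c).injective (congrFun hPP v)
  have h2 : (univ : Finset (Fin n → Fin h)) ⊆ univ.biUnion Y := by
    intro P _
    rw [mem_biUnion]
    by_contra hcon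
    push Not at hcon
    have h3 : ∀ c, n < h * (univ.filter (fun v => P v = c)).card := by
      intro c
      have h4 := hcon c (mem_univ c)
      rw [hY, mem_filter] at h4
      by_contra h5
      exact h4 ⟨mem_univ _, not_lt.mp h5⟩
    have h4 : ∑ c : Fin h, (univ.filter (fun v => P v = c)).card = n := by
      rw [← card_eq_sum_card_fiberwise (f := P) (s := univ) (t := univ) (fun v _ => by simp)]
      simp
    have h5 : ∑ c : Fin h, n < ∑ c : Fin h, h * (univ.filter (fun v => P v = c)).card :=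
      sum_lt_sum_of_nonempty ⟨0, mem_univ _⟩ (fun c _ => h3 c)
    rw [← mul_sum, h4, sum_const, card_univ, Fintype.card_fin, smul_eq_mul] at h5
    exact lt_irrefl _ h5
  calc Fintype.card (Fin n → Fin h) = (univ : Finset (Fin n → Fin h)).card := card_univ.symm
    _ ≤ (univ.biUnion Y).card := card_le_card h2
    _ ≤ ∑ c : Fin h, (Y c).card := card_biUnion_le
    _ ≤ ∑ c : Fin h, (Y 0).card := sum_le_sum (fun c _ => h1 c)
    _ = h * (Y 0).card := by rw [sum_const, card_univ, Fintype.card_fin, smul_eq_mul]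
    _ = _ := by rw [hY]

theorem two_pow_sub (h : ℕ) (hh : 2 ≤ h) : 2 * (h - 1) ^ h ≤ h ^ h := by
  obtain ⟨m, rfl⟩ : ∃ m, h = m + 1 := ⟨h - 1, by omega⟩
  rw [Nat.add_sub_cancel]
  have h1 : (1 : ℝ) + ((m + 1 : ℕ) : ℝ) * (1 / m) ≤ (1 + 1 / (m : ℝ)) ^ (m + 1) :=
    one_add_mul_le_pow (by
      have : (0 : ℝ) ≤ 1 / m := by positivity
      linarith) _
  have hm : (0 : ℝ) < m := by
    have : 1 ≤ m := by omega
    exact_mod_cast this
  have h2 : (2 : ℝ) ≤ (1 + 1 / (m : ℝ)) ^ (m + 1) := by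
    refine le_trans ?_ h1
    push_cast
    have h5 : (1 : ℝ) + (m + 1) * (1 / m) = 2 + 1 / m := by field_simp; ring
    rw [h5]
    have h6 : (0 : ℝ) ≤ 1 / m := by positivity
    linarith
  have h3 : (2 : ℝ) * m ^ (m + 1) ≤ (m + 1) ^ (m + 1) := by
    calc (2 : ℝ) * m ^ (m + 1) ≤ (1 + 1 / (m : ℝ)) ^ (m + 1) * m ^ (m + 1) :=
          mul_le_mul_of_nonneg_right h2 (by positivity)
      _ = ((1 + 1 / (m : ℝ)) * m) ^ (m + 1) := by rw [mul_pow]
      _ = (m + 1) ^ (m + 1) := by
        congr 1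
        field_simp
  exact_mod_cast h3

/-- the number of functions without zeros on a set -/
theorem card_avoid {ι : Type} [Fintype ι] [DecidableEq ι] {h : ℕ} [NeZero h] (hh : 2 ≤ h)
    (S : Finset ι) (r : ℕ) (hS : r * h ≤ S.card) :
    ((univ : Finset (ι → Fin h)).filter (fun b => ∀ q ∈ S, b q ≠ 0)).card * 2 ^ r ≤
      h ^ Fintype.card ι := by
  have e : (univ : Finset (ι → Fin h)).filter (fun b => ∀ q ∈ S, b q ≠ 0) =
      Fintype.piFinset (fun q => if q ∈ S then univ.filter (fun c : Fin h => c ≠ 0) else univ) := by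
    ext b
    rw [mem_filter, Fintype.mem_piFinset]
    constructor
    · rintro ⟨-, h1⟩ q
      by_cases hq : q ∈ S
      · rw [if_pos hq, mem_filter]
        exact ⟨mem_univ _, h1 q hq⟩
      · rw [if_neg hq]
        exact mem_univ _
    · intro h1
      refine ⟨mem_univ _, ?_⟩
      intro q hq
      have h2 := h1 q
      rw [if_pos hq, mem_filter] at h2
      exact h2.2
  have e0 : (univ.filter (fun c : Fin h => c ≠ 0)).card = h - 1 := by
    rw [filter_ne', card_erase_of_mem (mem_univ _), card_univ, Fintype.card_fin]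
  have e1 : ((univ : Finset (ι → Fin h)).filter (fun b => ∀ q ∈ S, b q ≠ 0)).card =
      (h - 1) ^ S.card * h ^ (Fintype.card ι - S.card) := by
    rw [e, Fintype.card_piFinset]
    have h1 : ∀ q : ι, (if q ∈ S then univ.filter (fun c : Fin h => c ≠ 0) else univ).card =
        if q ∈ S then h - 1 else h := by
      intro q
      split_ifs
      · exact e0
      · rw [card_univ, Fintype.card_fin]
    simp only [h1]
    rw [prod_ite, prod_const, prod_const]
    congr 2
    · congr 1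
      ext q
      simp
    · have h2 : univ.filter (fun q => q ∉ S) = univ \ S := by
        ext q
        simp
      rw [h2, card_sdiff_of_subset (subset_univ S), card_univ]
  have hSc : S.card ≤ Fintype.card ι := card_le_univ S
  rw [e1]
  have h2 : (h - 1) ^ (h * r) * 2 ^ r ≤ h ^ (h * r) := by
    rw [pow_mul, pow_mul, ← mul_pow]
    apply Nat.pow_le_pow_left
    rw [mul_comm]
    exact two_pow_sub h hh
  have h3 : S.card = h * r + (S.card - h * r) := by
    rw [mul_comm h r]
    omega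
  have h4 : h ^ Fintype.card ι = h ^ (h * r) * (h ^ (S.card - h * r) *
      h ^ (Fintype.card ι - S.card)) := by
    rw [← pow_add, ← pow_add]
    congr 1
    omega
  have h5 : (h - 1) ^ S.card = (h - 1) ^ (h * r) * (h - 1) ^ (S.card - h * r) := by
    rw [← pow_add, ← h3]
  rw [h4, h5]
  calc (h - 1) ^ (h * r) * (h - 1) ^ (S.card - h * r) * h ^ (Fintype.card ι - S.card) * 2 ^ r
      = ((h - 1) ^ (h * r) * 2 ^ r) * ((h - 1) ^ (S.card - h * r) *
          h ^ (Fintype.card ι - S.card)) := by ring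
    _ ≤ h ^ (h * r) * (h ^ (S.card - h * r) * h ^ (Fintype.card ι - S.card)) :=
        Nat.mul_le_mul h2 (Nat.mul_le_mul_right _ (Nat.pow_le_pow_left (Nat.sub_le _ _) _))

section bad

variable {n t h : ℕ} [NeZero h]

open Classical in
/-- the incidences of parts and vertices of `I` -/
noncomputable def inc (p : Pair n → Fin t) (I : Finset (Fin n)) : Finset (Fin t × Fin n) :=
  univ.filter (fun q => ∃ e : Pair n, p e = q.1 ∧ e.1.1 ∈ I ∧ e.1.2 ∈ I ∧
    (q.2 = e.1.1 ∨ q.2 = e.1.2))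

open Classical in
/-- the pairs in `I` -/
noncomputable def prs (I : Finset (Fin n)) : Finset (Pair n) :=
  univ.filter (fun e => e.1.1 ∈ I ∧ e.1.2 ∈ I)

theorem card_prs (I : Finset (Fin n)) : 2 * (prs I).card + I.card = I.card ^ 2 := by
  classical
  have h1 : (I.offDiag).card = 2 * (prs I).card := by
    have e : I.offDiag = ((prs I).image (fun e => (e.1.1, e.1.2))) ∪
        ((prs I).image (fun e => (e.1.2, e.1.1))) := by
      ext ⟨u, v⟩
      rw [mem_offDiag, mem_union, mem_image, mem_image]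
      constructor
      · rintro ⟨hu, hv, hne⟩
        rcases lt_or_gt_of_ne hne with h | h
        · left
          exact ⟨⟨(u, v), h⟩, mem_filter.mpr ⟨mem_univ _, hu, hv⟩, rfl⟩
        · right
          exact ⟨⟨(v, u), h⟩, mem_filter.mpr ⟨mem_univ _, hv, hu⟩, rfl⟩
      · rintro (⟨e, he, heq⟩ | ⟨e, he, heq⟩)
        · rw [Prod.mk.injEq] at heq
          obtain ⟨-, h1, h2⟩ := mem_filter.mp he
          rw [← heq.1, ← heq.2]
          exact ⟨h1, h2, e.2.ne⟩
        · rw [Prod.mk.injEq] at heq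
          obtain ⟨-, h1, h2⟩ := mem_filter.mp he
          rw [← heq.1, ← heq.2]
          exact ⟨h2, h1, e.2.ne'⟩
    rw [e, card_union_of_disjoint, card_image_of_injective, card_image_of_injective]
    · ring
    · intro e e' heq
      simp only [Prod.mk.injEq] at heq
      exact Subtype.ext (Prod.ext heq.2 heq.1)
    · intro e e' heq
      simp only [Prod.mk.injEq] at heq
      exact Subtype.ext (Prod.ext heq.1 heq.2)
    · rw [disjoint_left]
      rintro ⟨u, v⟩ h1 h2
      obtain ⟨e, -, he⟩ := mem_image.mp h1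
      obtain ⟨e', -, he'⟩ := mem_image.mp h2
      rw [Prod.mk.injEq] at he he'
      have g1 := e.2
      have g2 := e'.2
      rw [he.1, he.2] at g1
      rw [he'.1, he'.2] at g2
      exact absurd g1 (not_lt.mpr g2.le)
  have h2 := offDiag_card I
  have h3 : I.card ≤ I.card * I.card := Nat.le_mul_self _
  rw [h1] at h2
  rw [pow_two]
  omega

open Classical in
theorem part_le (p : Pair n → Fin t) (I : Finset (Fin n)) (j : Fin t) (y : ℕ)
    (hp : (univ.filter (fun e => p e = j)).card ≤ 2 * y ^ 2) :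
    ((prs I).filter (fun e => p e = j)).card ≤
      y * ((inc p I).filter (fun q => q.1 = j)).card := by
  obtain ⟨m, hm⟩ : ∃ m, m = ((prs I).filter (fun e => p e = j)).card := ⟨_, rfl⟩
  obtain ⟨Tj, hTj⟩ : ∃ Tj : Finset (Fin n), Tj = ((inc p I).filter (fun q => q.1 = j)).image
      (fun q => q.2) := ⟨_, rfl⟩
  have hT : Tj.card ≤ ((inc p I).filter (fun q => q.1 = j)).card := by
    rw [hTj]
    exact card_image_le
  rw [← hm]
  have h1 : m ≤ 2 * y ^ 2 := by
    rw [hm]
    refine le_trans (card_le_card ?_) hp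
    intro e he
    exact mem_filter.mpr ⟨mem_univ _, (mem_filter.mp he).2⟩
  have h2 : m ≤ (prs Tj).card := by
    rw [hm]
    apply card_le_card
    intro e he
    obtain ⟨he1, he2⟩ := mem_filter.mp he
    obtain ⟨-, he3, he4⟩ := mem_filter.mp he1
    refine mem_filter.mpr ⟨mem_univ _, ?_, ?_⟩
    · rw [hTj, mem_image]
      exact ⟨(j, e.1.1), mem_filter.mpr ⟨mem_filter.mpr ⟨mem_univ _, e, he2, he3, he4, Or.inl rfl⟩,
        rfl⟩, rfl⟩
    · rw [hTj, mem_image]
      exact ⟨(j, e.1.2), mem_filter.mpr ⟨mem_filter.mpr ⟨mem_univ _, e, he2, he3, he4, Or.inr rfl⟩,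
        rfl⟩, rfl⟩
  have h3 := card_prs Tj
  have h4 : 2 * m ≤ Tj.card ^ 2 := by omega
  have h5 : m * m ≤ (y * Tj.card) * (y * Tj.card) := by
    have h6 : 2 * (m * m) ≤ 2 * ((y * Tj.card) * (y * Tj.card)) := by
      calc 2 * (m * m) = (2 * m) * m := by ring
        _ ≤ Tj.card ^ 2 * (2 * y ^ 2) := Nat.mul_le_mul h4 h1
        _ = _ := by ring
    omega
  have h6 : m ≤ y * Tj.card := Nat.mul_self_le_mul_self_iff.mp h5
  exact h6.trans (Nat.mul_le_mul_left _ hT)

theorem inc_ge (p : Pair n → Fin t) (I : Finset (Fin n)) (y : ℕ)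
    (hp : ∀ j, (univ.filter (fun e => p e = j)).card ≤ 2 * y ^ 2) :
    (prs I).card ≤ y * (inc p I).card := by
  classical
  rw [card_eq_sum_card_fiberwise (f := p) (s := prs I) (t := univ) (fun e _ => by simp),
    card_eq_sum_card_fiberwise (f := fun q : Fin t × Fin n => q.1) (s := inc p I) (t := univ)
      (fun q _ => by simp), mul_sum]
  exact sum_le_sum (fun j _ => part_le p I j y (hp j))

/-- few mixtures have large independent sets -/
theorem few_bad {g y : ℕ} (hg : 1 ≤ g) (hh : 2 ≤ h) (hy1 : 1 ≤ y) (hy : 12 * (g ^ 2 * h) * y ≤ n)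
    (p : Pair n → Fin t) (hp : ∀ j, (univ.filter (fun e => p e = j)).card ≤ 2 * y ^ 2) :
    ∃ B : Finset (Fin t → Fin n → Fin h),
      (∀ b, ¬ LargeCovers g (mixp p gz b) → b ∈ B) ∧
      B.card * 2 ^ (2 * n) ≤ Fintype.card (Fin n → Fin h) ^ t := by
  classical
  obtain ⟨BI, hBI⟩ : ∃ BI : Finset (Fin n) → Finset (Fin t → Fin n → Fin h), BI = fun I =>
      univ.filter (fun b => ∀ q ∈ inc p I, b q.1 q.2 ≠ 0) := ⟨_, rfl⟩
  obtain ⟨Is, hIs⟩ : ∃ Is : Finset (Finset (Fin n)), Is = univ.filter (fun I => n < g * I.card) :=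
    ⟨_, rfl⟩
  refine ⟨Is.biUnion BI, ?_, ?_⟩
  · intro b hb
    unfold LargeCovers at hb
    push Not at hb
    obtain ⟨C, hC, hCc⟩ := hb
    rw [mem_biUnion]
    refine ⟨Cᶜ, ?_, ?_⟩
    · rw [hIs, mem_filter]
      refine ⟨mem_univ _, ?_⟩
      rw [card_compl, Fintype.card_fin]
      have h1 : C.card ≤ n := by
        have := card_le_univ C
        rwa [Fintype.card_fin] at this
      obtain ⟨κ, hκ⟩ : ∃ κ, κ = C.card := ⟨_, rfl⟩
      rw [← hκ] at h1 hCc ⊢
      obtain ⟨d, hd⟩ : ∃ d, n = κ + d := ⟨n - κ, by omega⟩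
      have h2 : n - κ = d := by omega
      rw [h2]
      have h3 : g * n = g * κ + g * d := by
        rw [← mul_add, ← hd]
      omega
    · rw [hBI, mem_filter]
      refine ⟨mem_univ _, ?_⟩
      rintro ⟨j, v⟩ hq
      obtain ⟨-, e, he1, he2, he3, he4⟩ := mem_filter.mp hq
      simp only at he1 he4 ⊢
      rw [mem_compl] at he2 he3
      have h1 : ¬ (mixp p gz b e = true) := by
        intro h2
        rcases hC e h2 with h3 | h3
        · exact he2 h3
        · exact he3 h3
      have h2 : mixp p gz b e = gz (b (p e)) e := rfl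
      rw [h2] at h1
      unfold gz at h1
      rw [decide_eq_true_eq, not_or] at h1
      rw [he1] at h1
      rcases he4 with h3 | h3
      · rw [h3]
        exact h1.1
      · rw [h3]
        exact h1.2
  · have hone : ∀ I ∈ Is, (BI I).card * 2 ^ (3 * n) ≤ Fintype.card (Fin n → Fin h) ^ t := by
      intro I hI
      rw [hIs, mem_filter] at hI
      have hI1 := hI.2
      have h1 := inc_ge p I y hp
      have h2 := card_prs I
      obtain ⟨s, hs⟩ : ∃ s, s = I.card := ⟨_, rfl⟩
      rw [← hs] at hI1 h2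
      obtain ⟨P, hP⟩ : ∃ P, P = (prs I).card := ⟨_, rfl⟩
      rw [← hP] at h1 h2
      -- `s ^ 2 ≤ 4 P`
      have hgn : g ≤ n := by
        calc g = g * 1 * 1 := by ring
          _ ≤ g * (12 * (g * h)) * y := by
              apply Nat.mul_le_mul _ hy1
              apply Nat.mul_le_mul_left
              have : 1 ≤ g * h := Nat.mul_pos hg (by omega)
              omega
          _ = 12 * (g ^ 2 * h) * y := by ring
          _ ≤ n := hy
      have hs2 : 2 ≤ s := by
        by_contra hcon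
        have h3 : g * s ≤ g * 1 := Nat.mul_le_mul_left _ (by omega)
        omega
      have h4 : s ^ 2 ≤ 4 * P := by
        have h5 : 2 * s ≤ s ^ 2 := by
          rw [pow_two]
          exact Nat.mul_le_mul_right _ hs2
        omega
      have h5 : n ^ 2 ≤ 4 * g ^ 2 * (y * (inc p I).card) := by
        calc n ^ 2 ≤ (g * s) ^ 2 := Nat.pow_le_pow_left hI1.le 2
          _ = g ^ 2 * s ^ 2 := by ring
          _ ≤ g ^ 2 * (4 * P) := Nat.mul_le_mul_left _ h4
          _ ≤ g ^ 2 * (4 * (y * (inc p I).card)) :=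
              Nat.mul_le_mul_left _ (Nat.mul_le_mul_left _ h1)
          _ = _ := by ring
      have h6 : 3 * n * h ≤ (inc p I).card := by
        have h7 : (4 * g ^ 2 * y) * (3 * n * h) ≤ (4 * g ^ 2 * y) * (inc p I).card := by
          calc (4 * g ^ 2 * y) * (3 * n * h) = (12 * (g ^ 2 * h) * y) * n := by ring
            _ ≤ n * n := Nat.mul_le_mul_right _ hy
            _ = n ^ 2 := by ring
            _ ≤ 4 * g ^ 2 * (y * (inc p I).card) := h5
            _ = _ := by ring
        exact Nat.le_of_mul_le_mul_left h7 (by positivity)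
      have h7 := card_avoid (ι := Fin t × Fin n) hh (inc p I) (3 * n) h6
      have h8 : (BI I).card ≤ ((univ : Finset (Fin t × Fin n → Fin h)).filter
          (fun b => ∀ q ∈ inc p I, b q ≠ 0)).card := by
        apply card_le_card_of_injOn (fun b q => b q.1 q.2)
        · intro b hb
          rw [hBI, mem_coe, mem_filter] at hb
          rw [mem_coe, mem_filter]
          exact ⟨mem_univ _, hb.2⟩
        · intro b _ b' _ hbb
          funext j v
          exact congrFun hbb (j, v)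
      refine (Nat.mul_le_mul_right _ h8).trans (h7.trans (le_of_eq ?_))
      rw [Fintype.card_prod, Fintype.card_fun, Fintype.card_fin, Fintype.card_fin, Fintype.card_fin,
        ← pow_mul, mul_comm]
    have h1 : (Is.biUnion BI).card ≤ ∑ I ∈ Is, (BI I).card := card_biUnion_le
    have h2 : Is.card ≤ 2 ^ n := by
      refine (card_le_univ Is).trans (le_of_eq ?_)
      rw [Fintype.card_finset, Fintype.card_fin]
    have h3 : (Is.biUnion BI).card * 2 ^ (2 * n) * 2 ^ n ≤
        Fintype.card (Fin n → Fin h) ^ t * 2 ^ n := by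
      calc (Is.biUnion BI).card * 2 ^ (2 * n) * 2 ^ n = (Is.biUnion BI).card * 2 ^ (3 * n) := by
            rw [mul_assoc, ← pow_add]
            congr 2
            ring
        _ ≤ (∑ I ∈ Is, (BI I).card) * 2 ^ (3 * n) := Nat.mul_le_mul_right _ h1
        _ = ∑ I ∈ Is, (BI I).card * 2 ^ (3 * n) := sum_mul _ _ _
        _ ≤ ∑ I ∈ Is, Fintype.card (Fin n → Fin h) ^ t := sum_le_sum hone
        _ = Is.card * Fintype.card (Fin n → Fin h) ^ t := by rw [sum_const, smul_eq_mul]
        _ ≤ 2 ^ n * Fintype.card (Fin n → Fin h) ^ t := Nat.mul_le_mul_right _ h2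
        _ = _ := mul_comm _ _
    exact Nat.le_of_mul_le_mul_right h3 (by positivity)

end bad

/-- **The lower bound.** -/
theorem main_vc (g h n : ℕ) (hg : 1 ≤ g) (hh : 2 ≤ h) (hn : 2 ^ 19 * (g ^ 2 * h) ^ 4 ≤ n)
    (μ : ℕ) (R : Type) [Fintype R] [Nonempty R] (K W : R → Type) [∀ ρ, Field (K ρ)]
    [∀ ρ, Fintype (W ρ)] (T : ∀ ρ, Net (K ρ) (Pair n) Bool (W ρ)) (a : ∀ ρ, W ρ → K ρ)
    (h1 : ∀ ρ e, (T ρ).reads e ≤ 1)
    (hno : ∀ ρ x, LargeCovers g x → (T ρ).value (a ρ) x = 0)
    (hyes : ∀ x, SmallCover h x →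
      Nat.card R ≤ 2 ^ μ * Nat.card {ρ // (T ρ).value (a ρ) x ≠ 0}) :
    ∃ ρ, 2 ^ n ≤ (2 ^ μ * Fintype.card (W ρ)) ^ (2 ^ 11 * (g ^ 2 * h) ^ 2) := by
  classical
  have hne : NeZero h := ⟨by omega⟩
  obtain ⟨q, hq⟩ : ∃ q, q = g ^ 2 * h := ⟨_, rfl⟩
  rw [← hq] at hn ⊢
  have hq2 : h ≤ q := by
    rw [hq]
    exact Nat.le_mul_of_pos_left _ (Nat.one_le_pow _ _ hg)
  have hq1 : 1 ≤ q := by omega
  have hqq : q ≤ q ^ 2 := Nat.le_self_pow (by norm_num) q
  have hq24 : q ^ 2 ≤ q ^ 4 := Nat.pow_le_pow_right hq1 (by norm_num)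
  obtain ⟨t, ht⟩ : ∃ t, t = 576 * q ^ 2 + 1 := ⟨_, rfl⟩
  obtain ⟨y, hy⟩ : ∃ y, y = n / (12 * q) := ⟨_, rfl⟩
  have hy1 : 1 ≤ y := by
    rw [hy]
    exact Nat.div_pos (by omega) (by omega)
  have hyn : 12 * q * y ≤ n := by
    rw [hy]
    exact Nat.mul_div_le n _
  have hny : n < 12 * q * (y + 1) := by
    rw [hy]
    exact Nat.lt_mul_div_succ n (by omega)
  have hpair : 2 * Fintype.card (Pair n) ≤ n * n := by
    have h2 := card_prs (univ : Finset (Fin n))
    have h3 : (prs (univ : Finset (Fin n))).card = Fintype.card (Pair n) := by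
      rw [← card_univ]
      congr 1
      ext e
      unfold prs
      simp
    rw [h3, card_univ, Fintype.card_fin, pow_two] at h2
    omega
  have hE : 2 * Fintype.card (Pair n) + y ^ 2 ≤ y ^ 2 * t := by
    have e1 : n ≤ 24 * q * y := by nlinarith
    have e2 : n * n ≤ (24 * q * y) * (24 * q * y) := Nat.mul_le_mul e1 e1
    calc 2 * Fintype.card (Pair n) + y ^ 2 ≤ n * n + y ^ 2 := Nat.add_le_add_right hpair _
      _ ≤ (24 * q * y) * (24 * q * y) + y ^ 2 := Nat.add_le_add_right e2 _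
      _ = y ^ 2 * t := by rw [ht]; ring
  obtain ⟨ρ, hρ, hw1⟩ := rand_density μ R K W T a h1 (θ := y ^ 2) (t := t)
    (Nat.one_le_pow _ _ hy1) (by omega) hE (U := Fin n → Fin h) gz
    (univ.filter (fun P : Fin n → Fin h => h * (univ.filter (fun v => P v = 0)).card ≤ n))
    (η := h) (card_few.trans (Nat.mul_le_mul_right _ Nat.lt_two_pow_self.le))
    (fun P hP => hyes _ (gz_small P (mem_filter.mp hP).2)) (N := 2 ^ (2 * n)) (fun ρ p hp => by
        obtain ⟨B, hB1, hB2⟩ := few_bad (h := h) hg hh hy1 (by rw [← hq]; exact hyn) p hp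
        exact ⟨B, fun b hb => hB1 b fun hv => hb (hno ρ _ hv), hB2⟩)
  refine ⟨ρ, ?_⟩
  obtain ⟨w, hw⟩ : ∃ w, w = Fintype.card (W ρ) := ⟨_, rfl⟩
  rw [← hw] at hρ hw1 ⊢
  obtain ⟨X, hX⟩ : ∃ X, X = 2 ^ μ * w := ⟨_, rfl⟩
  have hX1 : 1 ≤ X := by
    rw [hX]
    exact Nat.mul_pos (Nat.pow_pos (by norm_num)) hw1
  rw [← hX]
  have e1 : 2 ^ (μ + h + 1) * (t * w ^ 3) ≤ 2 ^ (t + h + 1) * X ^ 3 := by
    have e2 : t ≤ 2 ^ t := Nat.lt_two_pow_self.le
    have e3 : 2 ^ μ ≤ (2 ^ μ) ^ 3 := by
      conv_lhs => rw [← pow_one (2 ^ μ)]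
      exact Nat.pow_le_pow_right (Nat.pow_pos (by norm_num)) (by norm_num)
    calc 2 ^ (μ + h + 1) * (t * w ^ 3) = 2 ^ (h + 1) * (2 ^ μ * (t * w ^ 3)) := by
          rw [show μ + h + 1 = (h + 1) + μ by ring, pow_add]
          ring
      _ ≤ 2 ^ (h + 1) * ((2 ^ μ) ^ 3 * (2 ^ t * w ^ 3)) :=
        Nat.mul_le_mul_left _ (Nat.mul_le_mul e3 (Nat.mul_le_mul_right _ e2))
      _ = _ := by
        rw [hX, show t + h + 1 = (h + 1) + t by ring, pow_add 2 (h + 1) t]
        ring
  have e4 : 2 ^ (2 * n) ≤ 2 ^ ((t + h + 1) * (t + 1)) * X ^ (3 * (t + 1)) := by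
    calc 2 ^ (2 * n) ≤ (2 ^ (t + h + 1) * X ^ 3) ^ (t + 1) := hρ.trans (Nat.pow_le_pow_left e1 _)
      _ = _ := by rw [mul_pow, ← pow_mul, ← pow_mul]
  have e5 : (t + h + 1) * (t + 1) ≤ n := by
    have e6 : t + h + 1 ≤ 579 * q ^ 2 := by omega
    have e7 : t + 1 ≤ 578 * q ^ 2 := by omega
    calc (t + h + 1) * (t + 1) ≤ (579 * q ^ 2) * (578 * q ^ 2) := Nat.mul_le_mul e6 e7
      _ = 334662 * q ^ 4 := by ring
      _ ≤ 2 ^ 19 * q ^ 4 := Nat.mul_le_mul_right _ (by norm_num)
      _ ≤ n := hn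
  have e6 : 2 ^ n ≤ X ^ (3 * (t + 1)) := by
    refine Nat.le_of_mul_le_mul_left (c := 2 ^ n) ?_ (by positivity)
    calc 2 ^ n * 2 ^ n = 2 ^ (2 * n) := by rw [← pow_add]; congr 1; ring
      _ ≤ 2 ^ ((t + h + 1) * (t + 1)) * X ^ (3 * (t + 1)) := e4
      _ ≤ 2 ^ n * X ^ (3 * (t + 1)) :=
          Nat.mul_le_mul_right _ (Nat.pow_le_pow_right (by norm_num) e5)
  refine e6.trans (Nat.pow_le_pow_right hX1 ?_)
  omega

/-- **The upper bound.** -/
theorem upper_vc (h n : ℕ) (hn : 2 ≤ n) :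
    ∃ (T : Net ℚ (Pair n) Bool (Finset (Fin n))) (a : Finset (Fin n) → ℚ),
      T.Linear ∧ (∀ e, T.reads e = 1) ∧ T.size + 1 = n * (n - 1) ∧
        ∀ x, T.value a x ≠ 0 ↔ SmallCover h x := by
  classical
  have hp : Nonempty (Pair n) := ⟨⟨(⟨0, by omega⟩, ⟨1, by omega⟩), by
    rw [Fin.lt_def]
    simp only
    omega⟩⟩
  obtain ⟨T, h1, h2, h3, h4⟩ := exists_product (K := ℚ) (W := Finset (Fin n))
    (fun (e : Pair n) (b : Bool) (C : Finset (Fin n)) =>
      if b = true → (e.1.1 ∈ C ∨ e.1.2 ∈ C) then (1 : ℚ) else 0)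
  refine ⟨T, fun C => if h * C.card ≤ n then 1 else 0, h1, h2, ?_, fun x => ?_⟩
  · have h5 := card_prs (univ : Finset (Fin n))
    have h6 : (prs (univ : Finset (Fin n))).card = Fintype.card (Pair n) := by
      rw [← card_univ]
      congr 1
      ext e
      unfold prs
      simp
    rw [h6, card_univ, Fintype.card_fin, pow_two] at h5
    have h7 : 1 ≤ Fintype.card (Pair n) := Fintype.card_pos
    rw [h3]
    obtain ⟨m, rfl⟩ : ∃ m, n = m + 1 := ⟨n - 1, by omega⟩
    rw [Nat.add_sub_cancel]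
    have h8 : (m + 1) * (m + 1) = (m + 1) * m + (m + 1) := by ring
    omega
  · have h5 : ∀ C : Finset (Fin n), 0 ≤ T.eval x C ∧ (T.eval x C ≠ 0 ↔ IsCover x C) := by
      intro C
      rw [h4]
      refine ⟨prod_nonneg fun e _ => by split_ifs <;> norm_num, ?_⟩
      rw [prod_ne_zero_iff]
      constructor
      · intro h e
        by_contra hcon
        exact h e (mem_univ _) (if_neg hcon)
      · intro h e _
        rw [if_pos (h e)]
        exact one_ne_zero
    unfold Net.value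
    rw [Ne, sum_eq_zero_iff_of_nonneg (fun C _ => mul_nonneg (by split_ifs <;> norm_num) (h5 C).1)]
    push Not
    constructor
    · rintro ⟨C, -, hC⟩
      refine ⟨C, (h5 C).2.1 (right_ne_zero_of_mul hC), ?_⟩
      by_contra hcon
      exact (left_ne_zero_of_mul hC) (if_neg hcon)
    · rintro ⟨C, hC1, hC2⟩
      refine ⟨C, mem_univ _, ?_⟩
      rw [if_pos hC2, one_mul]
      exact (h5 C).2.2 hC1

end Pool.Agent.X240.TNV
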